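import Pool.Agent.H715.TW.Stm

/-!
# Project TW (helper715): parts `X7` (`zz n` modulo `7`) and `COP`
-/

set_option autoImplicit false

namespace Pool.Agent.H658.TW

open Pool.Agent.H528R2 (Vge Inert Test)
open Pool.Agent.H715.TW

/-! ### COP -/

theorem cop : S_COP := by
  intro n A D hn hD hc hz s hs
  have hF := Fact.mk hs
  have hz0 := zz_ne0 hn
  have hDq : (D : ℚ) ≠ 0 := by exact_mod_cast hD
  have hA : A ≠ 0 := by
    rintro rfl
    apply hz0
    rw [hz]; simp
  have hAq : (A : ℚ) ≠ 0 := by exact_mod_cast hA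
  have hv : padicValRat s (zz n) = (padicValInt s A : ℤ) - 2 * (padicValNat s D : ℤ) := by
    rw [hz, padicValRat.div hAq (pow_ne_zero 2 hDq), padicValRat.pow, padicValRat.of_int,
      padicValRat.of_nat]
    norm_num
  unfold dd
  rw [hv]
  by_cases hsD : s ∣ D
  · have hsA : ¬ (s : ℤ) ∣ A := by
      intro h
      have h1 : IsUnit (s : ℤ) := hc.isUnit_of_dvd' h (by exact_mod_cast hsD)
      have h2 := Int.isUnit_iff.1 h1
      have h3 := hs.two_le
      omega
    rw [padicValInt.eq_zero_of_not_dvd hsA]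
    omega
  · rw [padicValNat.eq_zero_of_not_dvd hsD]
    omega

/-! ### X7 -/

lemma h7 : Nat.Prime 7 := by norm_num

lemma vge_seven : Vge 7 1 (7 : ℚ) := by
  have hF := Fact.mk h7
  right
  have : padicValRat 7 ((7 : ℕ) : ℚ) = 1 := by
    rw [padicValRat.of_nat]; simp
  have h : padicValRat 7 (7 : ℚ) = 1 := by simpa using this
  rw [h]

lemma vge_frac (a b : ℤ) (hb : ¬ (7 : ℤ) ∣ b) : Vge 7 1 (7 * (a / b : ℚ)) := by
  have hF := Fact.mk h7
  have h0 : Vge 7 0 ((a : ℚ) / b) := by
    by_cases ha : a = 0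
    · left; simp [ha]
    right
    have hb0 : b ≠ 0 := by rintro rfl; simp at hb
    have hbv : padicValInt 7 b = 0 := padicValInt.eq_zero_of_not_dvd (by exact_mod_cast hb)
    rw [padicValRat.div (by exact_mod_cast ha) (by exact_mod_cast hb0), padicValRat.of_int,
      padicValRat.of_int, hbv]
    simp
  simpa using Vge.mul h7 vge_seven h0

lemma e1 : Vge 7 1 (zz 1 - 3) := by
  have := vge_frac (-5) 1 (by norm_num)
  rw [zz_one]
  norm_num at this ⊢
  exact this

lemma e2 : Vge 7 1 (zz 2 - 2) := by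
  have := vge_frac 34 9 (by norm_num)
  rw [zz_two]
  norm_num at this ⊢
  exact this

lemma e3 : Vge 7 1 (zz 3 - 6) := by
  have := vge_frac (-3338) 289 (by norm_num)
  rw [zz_three]
  norm_num at this ⊢
  exact this

lemma e4 : Vge 7 1 (zz 4 - 0) := by
  have := vge_frac 5488 16641 (by norm_num)
  rw [zz_four]
  norm_num at this ⊢
  exact this

lemma rk_seven : rk 7 = 8 := by
  have hF := Fact.mk h7
  have h8 : (rk 7 : ℤ) ∣ 8 := by
    rw [dvd_iff h7 (by norm_num), zz_eight, padicValRat.div (by norm_num) (by norm_num)]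
    have e1 : padicValRat 7 (312474419038422592576 : ℚ) = 0 := by
      have : padicValRat 7 ((312474419038422592576 : ℕ) : ℚ) = 0 := by
        rw [padicValRat.of_nat, padicValNat.eq_zero_of_not_dvd (by norm_num)]; rfl
      simpa using this
    have e2 : 0 < padicValRat 7 (1587559410619435449 : ℚ) := by
      have : 0 < padicValRat 7 ((1587559410619435449 : ℕ) : ℚ) := by
        rw [padicValRat.of_nat]
        exact_mod_cast one_le_padicValNat_of_dvd (by norm_num) (by norm_num)
      simpa using this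
    omega
  have h4 : ¬ (rk 7 : ℤ) ∣ 4 := by
    rw [dvd_iff h7 (by norm_num)]
    intro h
    rcases e4 with h0 | h0
    · rw [zz_four] at h0; norm_num at h0
    · rw [sub_zero] at h0; omega
  have h8' : rk 7 ∣ 2 ^ 3 := by exact_mod_cast h8
  obtain ⟨k, hk, hk'⟩ := (Nat.dvd_prime_pow Nat.prime_two).1 h8'
  rw [hk'] at h4 ⊢
  interval_cases k
  · exact absurd (by norm_num) h4
  · exact absurd (by norm_num) h4
  · exact absurd (by norm_num) h4
  · norm_num

lemma close (h : S_DIFF) {m n : ℤ} (hm : ¬ (8 : ℤ) ∣ m) (hn : ¬ (8 : ℤ) ∣ n)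
    (hmn : (8 : ℤ) ∣ m - n ∨ (8 : ℤ) ∣ m + n) : Vge 7 1 (zz m - zz n) := by
  have hm0 : m ≠ 0 := by rintro rfl; simp at hm
  have hn0 : n ≠ 0 := by rintro rfl; simp at hn
  by_cases h1 : m = n
  · left; rw [h1, sub_self]
  by_cases h2 : m = -n
  · left; rw [h2, zz_neg, sub_self]
  right
  rw [h 7 m n h7 (by norm_num) hm0 hn0 h1 h2]
  have z1 : dd 7 m = 0 := dd_eq_zero h7 hm0 (by rw [rk_seven]; exact hm)
  have z2 : dd 7 n = 0 := dd_eq_zero h7 hn0 (by rw [rk_seven]; exact hn)
  rw [z1, z2]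
  rcases hmn with hh | hh
  · have := (dd_neg_iff h7 (n := m - n) (by omega)).2 (by rw [rk_seven]; exact hh)
    omega
  · have := (dd_neg_iff h7 (n := m + n) (by omega)).2 (by rw [rk_seven]; exact hh)
    omega

lemma close' (h : S_DIFF) {m n : ℤ} {c : ℚ} (hm : ¬ (8 : ℤ) ∣ m) (hn : ¬ (8 : ℤ) ∣ n)
    (hmn : (8 : ℤ) ∣ m - n ∨ (8 : ℤ) ∣ m + n) (hc : Vge 7 1 (zz n - c)) :
    Vge 7 1 (zz m - c) := by
  have := Vge.add h7 (close h hm hn hmn) hc
  rwa [sub_add_sub_cancel] at this

theorem x7 (h : S_DIFF) : S_X7 := by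
  refine ⟨rk_seven, fun n hn => ?_⟩
  have hr : n % 8 = 1 ∨ n % 8 = 7 ∨ n % 8 = 2 ∨ n % 8 = 6 ∨ n % 8 = 3 ∨ n % 8 = 5 ∨ n % 8 = 4 := by
    omega
  have k1 := fun hh => close' h (m := n) (n := 1) hn (by norm_num) hh e1
  have k2 := fun hh => close' h (m := n) (n := 2) hn (by norm_num) hh e2
  have k3 := fun hh => close' h (m := n) (n := 3) hn (by norm_num) hh e3
  have k4 := fun hh => close' h (m := n) (n := 4) hn (by norm_num) hh e4
  rcases hr with hr | hr | hr | hr | hr | hr | hr
  · have := k1 (by omega)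
    rw [hr]; simpa [x7tab] using this
  · have := k1 (by omega)
    rw [hr]; simpa [x7tab] using this
  · have := k2 (by omega)
    rw [hr]; simpa [x7tab] using this
  · have := k2 (by omega)
    rw [hr]; simpa [x7tab] using this
  · have := k3 (by omega)
    rw [hr]; simpa [x7tab] using this
  · have := k3 (by omega)
    rw [hr]; simpa [x7tab] using this
  · have := k4 (by omega)
    rw [hr]; simpa [x7tab] using this

end Pool.Agent.H658.TW
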